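import Mathlib

set_option autoImplicit false

namespace Pool.Agent.Y86.LW

open Finset

lemma card_sol {p : ℕ} (hp : p.Prime) {a m : ℤ} (h : IsCoprime a m) :
    ((range p).filter (fun t : ℕ => (p : ℤ) ∣ a + m * t)).card = if (p : ℤ) ∣ m then 0 else 1 := by
  have hpz : Prime (p : ℤ) := Nat.prime_iff_prime_int.mp hp
  split_ifs with hm
  · rw [card_eq_zero, filter_eq_empty_iff]
    intro t _ ht
    have h1 : (p : ℤ) ∣ a := (dvd_add_left (hm.mul_right _)).mp ht
    exact hpz.not_isUnit (h.isUnit_of_dvd' h1 hm)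
  · have : Fact p.Prime := ⟨hp⟩
    rw [card_eq_one]
    have hm' : (m : ZMod p) ≠ 0 := by
      rw [Ne, ZMod.intCast_zmod_eq_zero_iff_dvd]
      exact hm
    refine ⟨((-(a : ZMod p) / (m : ZMod p)) : ZMod p).val, ?_⟩
    ext t
    rw [mem_filter, mem_range, mem_singleton]
    have key : (p : ℤ) ∣ a + m * t ↔ (t : ZMod p) = -(a : ZMod p) / (m : ZMod p) := by
      rw [← ZMod.intCast_zmod_eq_zero_iff_dvd]
      push_cast
      rw [eq_div_iff hm']
      constructor
      · intro h1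
        linear_combination h1
      · intro h1
        linear_combination h1
    rw [key]
    constructor
    · rintro ⟨h1, h2⟩
      rw [← h2, ZMod.val_natCast, Nat.mod_eq_of_lt h1]
    · rintro rfl
      exact ⟨ZMod.val_lt _, by rw [ZMod.natCast_zmod_val]⟩

lemma inv_le_exp {p : ℕ} (hp : 2 ≤ p) : (1 - 1 / (p : ℝ))⁻¹ ≤ Real.exp (2 / p) := by
  have h2 : (2 : ℝ) ≤ p := by exact_mod_cast hp
  have hx : 1 / (p : ℝ) ≤ 1 / 2 := one_div_le_one_div_of_le (by norm_num) h2
  have hx0 : 0 < 1 / (p : ℝ) := by positivity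
  set x : ℝ := 1 / (p : ℝ) with hxd
  have h3 : (2 : ℝ) / p = 2 * x := by rw [hxd]; ring
  rw [h3, inv_le_iff_one_le_mul₀ (by linarith)]
  have h4 : 2 * x + 1 ≤ Real.exp (2 * x) := Real.add_one_le_exp _
  nlinarith

lemma one_le_fac {p : ℕ} (hp : 2 ≤ p) : 1 ≤ (1 - 1 / (p : ℝ))⁻¹ := by
  have h2 : (2 : ℝ) ≤ p := by exact_mod_cast hp
  have hx : 1 / (p : ℝ) ≤ 1 / 2 := one_div_le_one_div_of_le (by norm_num) h2
  have hx0 : 0 < 1 / (p : ℝ) := by positivity
  exact (one_le_inv₀ (by linarith)).mpr (by linarith)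

lemma omega_le {M : ℕ} (hM : M ≠ 0) : 2 ^ M.primeFactors.card ≤ M := by
  calc 2 ^ M.primeFactors.card = ∏ _p ∈ M.primeFactors, 2 := by rw [prod_const]
    _ ≤ ∏ p ∈ M.primeFactors, p := prod_le_prod (fun _ _ => by norm_num) fun p hp =>
        (Nat.prime_of_mem_primeFactors hp).two_le
    _ ≤ M := Nat.le_of_dvd (Nat.pos_of_ne_zero hM) (Nat.prod_primeFactors_dvd M)

theorem t_PHI : ∀ η : ℝ, 0 < η → ∃ H₀ : ℕ, ∀ H : ℕ, H₀ ≤ H → ∀ E : ℕ, 2 ≤ E → ∀ a m : ℤ, 1 ≤ m →
    m ≤ H → IsCoprime a m → ∀ P : ℝ, P = ∏ p ∈ (Icc 1 ⌊Real.log H ^ E⌋₊).filter Nat.Prime,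
      (1 - (((range p).filter (fun t : ℕ => (p : ℤ) ∣ a + m * t)).card : ℝ) / p) /
        (1 - 1 / (p : ℝ)) →
    P ≤ (m : ℝ) / (Nat.totient m.toNat : ℝ) ∧
      (m : ℝ) / (Nat.totient m.toNat : ℝ) ≤ (1 + η) * P := by
  intro η hη
  refine ⟨⌈Real.exp (max 1 (4 / Real.log (1 + η)))⌉₊, fun H hH E hE a m hm1 hmH hcop P hP => ?_⟩
  have hexp : Real.exp (max 1 (4 / Real.log (1 + η))) ≤ H := Nat.ceil_le.mp hH
  have hH0 : (0 : ℝ) < H := (Real.exp_pos _).trans_le hexp
  have hL : max 1 (4 / Real.log (1 + η)) ≤ Real.log H := (Real.le_log_iff_exp_le hH0).mpr hexp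
  have hL1 : 1 ≤ Real.log H := (le_max_left _ _).trans hL
  have hL2 : 4 / Real.log (1 + η) ≤ Real.log H := (le_max_right _ _).trans hL
  set z := ⌊Real.log H ^ E⌋₊ with hz
  obtain ⟨M, rfl⟩ : ∃ M : ℕ, m = M := ⟨m.toNat, (Int.toNat_of_nonneg (by omega)).symm⟩
  have hM1 : 1 ≤ M := by exact_mod_cast hm1
  have hM0 : M ≠ 0 := by omega
  have hMH : M ≤ H := by exact_mod_cast hmH
  rw [Int.toNat_natCast, Int.cast_natCast]
  -- the product
  have hP' : P = ∏ p ∈ M.primeFactors.filter (fun p => p ≤ z), (1 - 1 / (p : ℝ))⁻¹ := by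
    rw [hP]
    have h1 : ∀ p ∈ (Icc 1 z).filter Nat.Prime,
        (1 - (((range p).filter (fun t : ℕ => (p : ℤ) ∣ a + M * t)).card : ℝ) / p) /
          (1 - 1 / (p : ℝ)) = if p ∣ M then (1 - 1 / (p : ℝ))⁻¹ else 1 := by
      intro p hp
      have hpp := (mem_filter.mp hp).2
      rw [card_sol hpp hcop]
      have h2 : (2 : ℝ) ≤ p := by exact_mod_cast hpp.two_le
      have hx : 1 / (p : ℝ) ≤ 1 / 2 := one_div_le_one_div_of_le (by norm_num) h2
      by_cases h : p ∣ M
      · rw [if_pos h, if_pos (by exact_mod_cast h), Nat.cast_zero, zero_div, sub_zero, one_div]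
      · rw [if_neg h, if_neg (by exact_mod_cast h), Nat.cast_one, div_self (by linarith)]
    rw [prod_congr rfl h1, prod_ite, prod_const_one, mul_one]
    refine prod_congr ?_ fun _ _ => rfl
    ext p
    simp only [mem_filter, mem_Icc, Nat.mem_primeFactors]
    constructor
    · rintro ⟨⟨⟨h1, h2⟩, h3⟩, h4⟩
      exact ⟨⟨h3, h4, hM0⟩, h2⟩
    · rintro ⟨⟨h1, h2, h3⟩, h4⟩
      exact ⟨⟨⟨h1.pos, h4⟩, h1⟩, h2⟩
  have hphi : (M : ℝ) / (Nat.totient M : ℝ) = ∏ p ∈ M.primeFactors, (1 - 1 / (p : ℝ))⁻¹ := by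
    have h1 := Nat.totient_eq_mul_prod_factors M
    have h2 : (Nat.totient M : ℝ) = M * ∏ p ∈ M.primeFactors, (1 - (p : ℝ)⁻¹) := by
      have h3 := congrArg (fun x : ℚ => (x : ℝ)) h1
      push_cast at h3
      exact h3
    have hM' : (M : ℝ) ≠ 0 := by exact_mod_cast hM0
    rw [h2, prod_inv_distrib]
    simp_rw [one_div]
    rw [div_mul_eq_div_div, div_self hM', one_div]
  have hsplit : (M : ℝ) / (Nat.totient M : ℝ) =
      P * ∏ p ∈ M.primeFactors.filter (fun p => ¬ p ≤ z), (1 - 1 / (p : ℝ))⁻¹ := by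
    rw [hphi, hP', prod_filter_mul_prod_filter_not]
  have hP0 : 0 ≤ P := by
    rw [hP']
    refine prod_nonneg fun p hp => ?_
    exact zero_le_one.trans (one_le_fac (Nat.prime_of_mem_primeFactors (mem_filter.mp hp).1).two_le)
  set Q := ∏ p ∈ M.primeFactors.filter (fun p => ¬ p ≤ z), (1 - 1 / (p : ℝ))⁻¹ with hQ
  have hQ1 : 1 ≤ Q := by
    have h1 := prod_le_prod (s := M.primeFactors.filter (fun p => ¬ p ≤ z)) (f := fun _ => (1 : ℝ))
      (g := fun p : ℕ => (1 - 1 / (p : ℝ))⁻¹) (fun _ _ => zero_le_one)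
      (fun p hp => one_le_fac (Nat.prime_of_mem_primeFactors (mem_filter.mp hp).1).two_le)
    rwa [prod_const_one] at h1
  have hQ2 : Q ≤ 1 + η := by
    have h1 : Q ≤ ∏ p ∈ M.primeFactors.filter (fun p => ¬ p ≤ z), Real.exp (2 / p) := by
      refine prod_le_prod (fun p hp => ?_) fun p hp => ?_
      · exact zero_le_one.trans (one_le_fac (Nat.prime_of_mem_primeFactors (mem_filter.mp hp).1).two_le)
      · exact inv_le_exp (Nat.prime_of_mem_primeFactors (mem_filter.mp hp).1).two_le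
    rw [← Real.exp_sum] at h1
    have hLpos : 0 < Real.log H := by linarith
    have h2 : ∑ p ∈ M.primeFactors.filter (fun p => ¬ p ≤ z), 2 / (p : ℝ) ≤
        (M.primeFactors.card : ℝ) * (2 / Real.log H ^ 2) := by
      calc ∑ p ∈ M.primeFactors.filter (fun p => ¬ p ≤ z), 2 / (p : ℝ)
          ≤ ∑ _p ∈ M.primeFactors.filter (fun p => ¬ p ≤ z), 2 / Real.log H ^ 2 := by
            refine sum_le_sum fun p hp => ?_
            have h3 : z < p := not_le.mp (mem_filter.mp hp).2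
            have h4 : Real.log H ^ E < p := Nat.lt_of_floor_lt h3
            have h5 : Real.log H ^ 2 ≤ Real.log H ^ E := pow_le_pow_right₀ hL1 hE
            exact div_le_div_of_nonneg_left (by norm_num) (by positivity) (h5.trans h4.le)
        _ = ((M.primeFactors.filter (fun p => ¬ p ≤ z)).card : ℝ) * (2 / Real.log H ^ 2) := by
            rw [sum_const, nsmul_eq_mul]
        _ ≤ (M.primeFactors.card : ℝ) * (2 / Real.log H ^ 2) := by
            refine mul_le_mul_of_nonneg_right ?_ (by positivity)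
            exact_mod_cast card_filter_le _ _
    have h3 : (M.primeFactors.card : ℝ) ≤ 2 * Real.log H := by
      have h4 : ((2 : ℝ)) ^ M.primeFactors.card ≤ H := by
        exact_mod_cast (omega_le hM0).trans hMH
      have h5 := Real.log_le_log (by positivity) h4
      rw [Real.log_pow] at h5
      have h6 : (1 / 2 : ℝ) < Real.log 2 := by
        have := Real.log_two_gt_d9
        linarith
      have h7 : (0 : ℝ) ≤ (M.primeFactors.card : ℝ) := Nat.cast_nonneg _
      nlinarith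
    have h4 : (M.primeFactors.card : ℝ) * (2 / Real.log H ^ 2) ≤ 4 / Real.log H := by
      calc (M.primeFactors.card : ℝ) * (2 / Real.log H ^ 2)
          ≤ (2 * Real.log H) * (2 / Real.log H ^ 2) :=
            mul_le_mul_of_nonneg_right h3 (by positivity)
        _ = 4 / Real.log H := by
            field_simp
            ring
    have hlog : 0 < Real.log (1 + η) := Real.log_pos (by linarith)
    have h5 : 4 / Real.log H ≤ Real.log (1 + η) := by
      rw [div_le_iff₀ hlog] at hL2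
      rw [div_le_iff₀ hLpos]
      linarith
    calc Q ≤ Real.exp (∑ p ∈ M.primeFactors.filter (fun p => ¬ p ≤ z), 2 / (p : ℝ)) := h1
      _ ≤ Real.exp (Real.log (1 + η)) := Real.exp_le_exp.mpr (h2.trans (h4.trans h5))
      _ = 1 + η := Real.exp_log (by linarith)
  rw [hsplit]
  constructor
  · exact le_mul_of_one_le_right hP0 hQ1
  · rw [mul_comm (1 + η)]
    exact mul_le_mul_of_nonneg_left hQ2 hP0

end Pool.Agent.Y86.LW
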